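import Pool.Agent.L7h7.GJ.Stm

set_option autoImplicit false

namespace Pool.Agent.L7h95.GJ

open Pool.Agent.L7h7.GJ

theorem sx_cases {d : ℕ} : ∀ (ν : Wd d) (m : Fin (d + 1)),
    (∃ j, sx ν m = Sum.inl j) ∨ ∃ w : Wd d, w ≠ [] ∧ w <:+ ν ∧ sx ν m = Sum.inr w := by
  intro ν
  induction ν with
  | nil => intro m; exact Or.inl ⟨m, rfl⟩
  | cons i ν ih =>
    intro m
    by_cases h : m = i
    · subst h
      exact Or.inr ⟨m :: ν, by simp, List.suffix_refl _, by simp [sx]⟩
    · have h1 : sx (i :: ν) m = sx ν m := by simp [sx, Function.update_of_ne h]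
      rw [h1]
      rcases ih m with h2 | ⟨w, h2, h3, h4⟩
      · exact Or.inl h2
      · exact Or.inr ⟨w, h2, h3.trans (List.suffix_cons i ν), h4⟩

theorem inr_notMem {d : ℕ} (i : Fin (d + 1)) (ν : Wd d) (m : Fin (d + 1)) :
    sx ν m ≠ Sum.inr (i :: ν) := by
  intro h
  rcases sx_cases ν m with ⟨j, hj⟩ | ⟨w, _, hw, h2⟩
  · rw [hj] at h; simp at h
  · rw [h2] at h
    have h3 : w = i :: ν := Sum.inr.inj h
    have h4 := hw.length_le
    rw [h3] at h4
    simp at h4

theorem sx_inj {d : ℕ} : ∀ ν : Wd d, Function.Injective (sx ν) := by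
  intro ν
  induction ν with
  | nil => exact Sum.inl_injective
  | cons i ν ih =>
    intro a b hab
    by_cases ha : a = i <;> by_cases hb : b = i
    · rw [ha, hb]
    · subst ha
      have h1 : sx (a :: ν) b = sx ν b := by simp [sx, Function.update_of_ne hb]
      have h2 : sx (a :: ν) a = Sum.inr (a :: ν) := by simp [sx]
      rw [h1, h2] at hab
      exact absurd hab.symm (inr_notMem _ _ _)
    · subst hb
      have h1 : sx (b :: ν) a = sx ν a := by simp [sx, Function.update_of_ne ha]
      have h2 : sx (b :: ν) b = Sum.inr (b :: ν) := by simp [sx]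
      rw [h1, h2] at hab
      exact absurd hab (inr_notMem _ _ _)
    · have h1 : sx (i :: ν) a = sx ν a := by simp [sx, Function.update_of_ne ha]
      have h2 : sx (i :: ν) b = sx ν b := by simp [sx, Function.update_of_ne hb]
      rw [h1, h2] at hab
      exact ih hab

theorem suffix_mem {d : ℕ} {S : Set (Wd d)} (hS : ∀ a w, (a :: w) ∈ S → w = [] ∨ w ∈ S) :
    ∀ (ν : Wd d), (ν = [] ∨ ν ∈ S) → ∀ w : Wd d, w ≠ [] → w <:+ ν → w ∈ S := by
  intro ν
  induction ν with
  | nil => intro _ w hw h; exact absurd (List.suffix_nil.mp h) hw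
  | cons a ν ih =>
    intro h w hw hs
    rcases h with h | h
    · simp at h
    · rcases List.suffix_cons_iff.mp hs with h1 | h1
      · rw [h1]; exact h
      · exact ih (hS a ν h) w hw h1

theorem sx_mem {d : ℕ} {S : Set (Wd d)} (hS : ∀ a w, (a :: w) ∈ S → w = [] ∨ w ∈ S)
    (ν : Wd d) (hν : ν = [] ∨ ν ∈ S) (m : Fin (d + 1)) : sx ν m ∈ LS S := by
  rcases sx_cases ν m with ⟨j, hj⟩ | ⟨w, hw, hs, h2⟩
  · exact Or.inl ⟨j, hj⟩
  · exact Or.inr ⟨w, suffix_mem hS ν hν w hw hs, h2⟩

theorem LS_finite {d : ℕ} {S : Set (Wd d)} (hS : S.Finite) : (LS S).Finite := by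
  have h : LS S = Set.range Sum.inl ∪ Sum.inr '' S := by
    ext x
    simp only [LS, Set.mem_ofPred_eq, Set.mem_union, Set.mem_range, Set.mem_image]
    constructor
    · rintro (⟨i, hi⟩ | ⟨w, hw, h⟩)
      · exact Or.inl ⟨i, hi.symm⟩
      · exact Or.inr ⟨w, hw, h.symm⟩
    · rintro (⟨i, hi⟩ | ⟨w, hw, h⟩)
      · exact Or.inl ⟨i, hi.symm⟩
      · exact Or.inr ⟨w, hw, h.symm⟩
  rw [h]
  exact (Set.finite_range _).union (hS.image _)

theorem ncard_facet {d : ℕ} (ν : Wd d) (i : Fin (d + 1)) :
    (sx ν '' ({i} : Set (Fin (d + 1)))ᶜ).ncard = d := by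
  rw [Set.ncard_image_of_injective _ (sx_inj ν), Set.ncard_compl, Set.ncard_singleton]
  simp

theorem ncard_ridge {d : ℕ} (ν : Wd d) (i j : Fin (d + 1)) (h : i ≠ j) :
    (sx ν '' ({i, j} : Set (Fin (d + 1)))ᶜ).ncard = d - 1 := by
  rw [Set.ncard_image_of_injective _ (sx_inj ν), Set.ncard_compl, Set.ncard_pair h]
  simp

theorem suffix_of_facet {d : ℕ} (ν ν' : Wd d) (i a : Fin (d + 1)) (hi : Adm (i :: ν))
    (h : sx ν '' ({i} : Set (Fin (d + 1)))ᶜ ⊆ sx ν' '' ({a} : Set (Fin (d + 1)))ᶜ) :
    ν <:+ ν' := by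
  cases ν with
  | nil => exact List.nil_suffix
  | cons j ν0 =>
    have hij : i ≠ j := hi.1
    have h1 : (Sum.inr (j :: ν0) : Lab d) ∈ sx (j :: ν0) '' ({i} : Set (Fin (d + 1)))ᶜ :=
      ⟨j, by simpa using hij.symm, by simp [sx]⟩
    obtain ⟨m, _, hm⟩ := h h1
    rcases sx_cases ν' m with ⟨k, hk⟩ | ⟨w, _, hs, h2⟩
    · rw [hk] at hm; simp at hm
    · rw [h2] at hm
      rw [← Sum.inr.inj hm]; exact hs

theorem facet_det {d : ℕ} (ν ν' : Wd d) (i a : Fin (d + 1)) (hi : Adm (i :: ν))
    (ha : Adm (a :: ν'))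
    (h : sx ν '' ({i} : Set (Fin (d + 1)))ᶜ ⊆ sx ν' '' ({a} : Set (Fin (d + 1)))ᶜ) :
    ν = ν' ∧ i = a := by
  have heq : sx ν '' ({i} : Set (Fin (d + 1)))ᶜ = sx ν' '' ({a} : Set (Fin (d + 1)))ᶜ := by
    apply Set.eq_of_subset_of_ncard_le h _ ((Set.toFinite _).image _)
    rw [ncard_facet, ncard_facet]
  have h1 := suffix_of_facet ν ν' i a hi h
  have h2 := suffix_of_facet ν' ν a i ha heq.symm.subset
  have h3 : ν = ν' := h1.eq_of_length (le_antisymm h1.length_le h2.length_le)
  subst h3
  refine ⟨rfl, ?_⟩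
  have h4 := (sx_inj ν).image_injective heq
  have h5 : ({i} : Set (Fin (d + 1))) = {a} := compl_injective h4
  exact Set.singleton_injective h5

theorem s_WSTEP : S_WSTEP := by
  intro hG d S p i ν hd hSf hS1 hS2 hν hadm hnot hInv
  classical
  obtain ⟨hGP, hvert, hridge, hfacet⟩ := hInv
  have hsL : ∀ m, sx ν m ∈ LS S := sx_mem hS2 ν hν
  obtain ⟨v, hv1, hv2, hv3, hv4⟩ := hG d (Lab d) (LS S) p (sx ν) i hd (LS_finite hSf)
    (sx_inj ν) hsL hGP (hfacet ν hν i hadm hnot)
  set n : Lab d := Sum.inr (i :: ν) with hn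
  have hnL : n ∉ LS S := by
    rintro (⟨j, hj⟩ | ⟨w, hw, h⟩)
    · simp [hn] at hj
    · rw [hn] at h
      rw [← Sum.inr.inj h] at hw
      exact hnot hw
  have hL' : LS (insert (i :: ν) S) = insert n (LS S) := by
    ext x
    simp only [LS, Set.mem_ofPred_eq, Set.mem_insert_iff]
    constructor
    · rintro (h | ⟨w, hw | hw, h⟩)
      · exact Or.inr (Or.inl h)
      · left; rw [h, hw]
      · exact Or.inr (Or.inr ⟨w, hw, h⟩)
    · rintro (h | h | ⟨w, hw, h⟩)
      · exact Or.inr ⟨i :: ν, Or.inl rfl, h⟩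
      · exact Or.inl h
      · exact Or.inr ⟨w, Or.inr hw, h⟩
  have hpn : Function.update p n v n = v := Function.update_self ..
  have hpo : ∀ x, x ≠ n → Function.update p n v x = p x := fun x hx =>
    Function.update_of_ne hx ..
  have hpL : ∀ x ∈ LS S, Function.update p n v x = p x := fun x hx =>
    hpo x (fun h => hnL (h ▸ hx))
  -- lifting of exposed sets
  have hlift : ∀ A : Set (Lab d), A ⊆ LS S → Expo p (LS S) A →
      ¬ (sx ν '' ({i} : Set (Fin (d + 1)))ᶜ ⊆ A) →
      Expo (Function.update p n v) (LS (insert (i :: ν) S)) A := by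
    intro A hA hE hns
    obtain ⟨l, c, h1, h2, h3⟩ := hv2 A hA hE hns
    refine ⟨l, c, fun x hx => ?_, fun x hx hxA => ?_⟩
    · rw [hpL x (hA hx)]; exact h1 x hx
    · rw [hL'] at hx
      rcases hx with hx | hx
      · rw [hx, hpn]; exact h3
      · rw [hpL x hx]; exact h2 x hx hxA
  have hFfin : (sx ν '' ({i} : Set (Fin (d + 1)))ᶜ).Finite := (Set.toFinite _).image _
  have hsmall : ∀ A : Set (Lab d), A.Finite → A.ncard < d →
      ¬ (sx ν '' ({i} : Set (Fin (d + 1)))ᶜ ⊆ A) := by
    intro A hA hc hsub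
    have := Set.ncard_le_ncard hsub hA
    rw [ncard_facet] at this
    omega
  -- the new facets
  have hnew : ∀ a, a ≠ i → Expo (Function.update p n v) (LS (insert (i :: ν) S))
      (sx (i :: ν) '' ({a} : Set (Fin (d + 1)))ᶜ) := by
    intro a ha
    obtain ⟨l, h1, h2⟩ := hv4 a ha
    refine ⟨l, l v, ?_, ?_⟩
    · rintro x ⟨m, hm, rfl⟩
      have hma : m ≠ a := by simpa using hm
      by_cases hmi : m = i
      · have : sx (i :: ν) m = n := by rw [hmi]; simp [sx, hn]
        rw [this, hpn]
      · have h3 : sx (i :: ν) m = sx ν m := by simp [sx, Function.update_of_ne hmi]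
        rw [h3, hpL _ (hsL m)]
        exact h1 m hmi hma
    · intro x hx hxA
      rw [hL'] at hx
      rcases hx with hx | hx
      · exact absurd ⟨i, by simpa using ha.symm, by rw [hx]; simp [sx, hn]⟩ hxA
      · rw [hpL x hx]
        refine h2 x hx ?_
        rintro ⟨m, hm, rfl⟩
        have hm' : m ≠ i ∧ m ≠ a := by simpa using hm
        refine hxA ⟨m, by simpa using hm'.2, ?_⟩
        simp [sx, Function.update_of_ne hm'.1]
  refine ⟨Function.update p n v, ?_, ?_, ?_, ?_⟩
  · -- general position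
    intro A hA hc
    rw [hL'] at hA
    by_cases hnA : n ∈ A
    · have hsub : ((A.erase n : Finset (Lab d)) : Set (Lab d)) ⊆ LS S := by
        intro x hx
        have hx' : x ∈ A.erase n := hx
        rcases hA (Finset.mem_of_mem_erase hx') with h | h
        · exact absurd h (Finset.ne_of_mem_erase hx')
        · exact h
      have hcard : (A.erase n).card ≤ d := by
        rw [Finset.card_erase_of_mem hnA]; omega
      have hind := hGP (A.erase n) hsub (by omega)
      have hvn := hv1 (A.erase n) hsub hcard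
      refine AffineIndependent.affineIndependent_of_notMem_span (i := (⟨n, hnA⟩ : A)) ?_ ?_
      · let e : {y : A // y ≠ (⟨n, hnA⟩ : A)} ↪ (A.erase n : Finset (Lab d)) :=
          ⟨fun y => ⟨y.1.1, Finset.mem_erase.mpr
            ⟨fun h => y.2 (Subtype.ext h), y.1.2⟩⟩, by
            intro y y' h
            apply Subtype.ext
            apply Subtype.ext
            exact Subtype.mk.inj h⟩
        have h1 := hind.comp_embedding e
        have h2 : (fun x : {y : A // y ≠ (⟨n, hnA⟩ : A)} =>
            Function.update p n v ((x : A) : Lab d)) =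
            (fun x : (A.erase n : Finset (Lab d)) => p x) ∘ e := by
          funext y
          exact hpo _ (fun h => y.2 (Subtype.ext h))
        rw [h2]
        exact h1
      · have h3 : (fun x : A => Function.update p n v (x : Lab d)) '' {x | x ≠ (⟨n, hnA⟩ : A)} =
            p '' ((A.erase n : Finset (Lab d)) : Set (Lab d)) := by
          ext y
          constructor
          · rintro ⟨x, hx, rfl⟩
            have hx' : (x : Lab d) ≠ n := fun h => hx (Subtype.ext h)
            refine ⟨x.1, ?_, ?_⟩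
            · exact Finset.mem_coe.mpr (Finset.mem_erase.mpr ⟨hx', x.2⟩)
            · exact (hpo _ hx').symm
          · rintro ⟨x, hx, rfl⟩
            have hx' := Finset.mem_erase.mp (Finset.mem_coe.mp hx)
            exact ⟨⟨x, hx'.2⟩, fun h => hx'.1 (congrArg Subtype.val h), hpo _ hx'.1⟩
        rw [h3]
        simpa [hpn] using hvn
    · have hsub : (A : Set (Lab d)) ⊆ LS S := by
        intro x hx
        rcases hA hx with h | h
        · exact absurd (h ▸ hx) hnA
        · exact h
      have h1 := hGP A hsub hc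
      have h2 : (fun x : A => Function.update p n v (x : Lab d)) = fun x : A => p x := by
        funext x
        exact hpL _ (hsub x.2)
      rw [h2]
      exact h1
  · -- vertices
    intro x hx
    rw [hL'] at hx
    rcases hx with hx | hx
    · obtain ⟨l, hl⟩ := hv3
      refine ⟨l, l v, fun y hy => ?_, fun y hy hyx => ?_⟩
      · rw [Set.mem_singleton_iff.mp hy, hx, hpn]
      · rw [hL'] at hy
        rcases hy with hy | hy
        · exact absurd (by rw [Set.mem_singleton_iff, hy, hx]) hyx
        · rw [hpL y hy]; exact hl y hy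
    · refine hlift {x} (by simpa using hx) (hvert x hx) (hsmall _ (Set.finite_singleton x) ?_)
      rw [Set.ncard_singleton]; omega
  · -- ridges
    have hold : ∀ ν' : Wd d, (ν' = [] ∨ ν' ∈ S) → ∀ a b, a ≠ b →
        Expo (Function.update p n v) (LS (insert (i :: ν) S))
          (sx ν' '' ({a, b} : Set (Fin (d + 1)))ᶜ) := by
      intro ν' hν' a b hab
      refine hlift _ ?_ (hridge ν' hν' a b hab) (hsmall _ ((Set.toFinite _).image _) ?_)
      · rintro x ⟨m, _, rfl⟩
        exact sx_mem hS2 ν' hν' m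
      · rw [ncard_ridge _ _ _ hab]; omega
    intro ν' hν' a b hab
    have hν'' : (ν' = [] ∨ ν' ∈ S) ∨ ν' = i :: ν := by
      rcases hν' with h | h | h
      · exact Or.inl (Or.inl h)
      · exact Or.inr h
      · exact Or.inl (Or.inr h)
    rcases hν'' with h | h
    · exact hold ν' h a b hab
    · subst h
      by_cases hi : i = a ∨ i = b
      · have heq : sx (i :: ν) '' ({a, b} : Set (Fin (d + 1)))ᶜ =
            sx ν '' ({a, b} : Set (Fin (d + 1)))ᶜ := by
          apply Set.image_congr
          intro m hm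
          have hm' : m ≠ a ∧ m ≠ b := by simpa using hm
          have hmi : m ≠ i := by
            rcases hi with h | h
            · rw [h]; exact hm'.1
            · rw [h]; exact hm'.2
          simp [sx, Function.update_of_ne hmi]
        rw [heq]
        exact hold ν hν a b hab
      · push Not at hi
        obtain ⟨la, ca, ha1, ha2⟩ := hnew a hi.1.symm
        obtain ⟨lb, cb, hb1, hb2⟩ := hnew b hi.2.symm
        refine ⟨la + lb, ca + cb, ?_, ?_⟩
        · rintro x ⟨m, hm, rfl⟩
          have hm' : m ≠ a ∧ m ≠ b := by simpa using hm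
          have h1 := ha1 (sx (i :: ν) m) ⟨m, by simpa using hm'.1, rfl⟩
          have h2 := hb1 (sx (i :: ν) m) ⟨m, by simpa using hm'.2, rfl⟩
          simp only [add_apply]
          rw [h1, h2]
        · intro x hx hxA
          simp only [add_apply]
          have hale : la (Function.update p n v x) ≤ ca := by
            by_cases h : x ∈ sx (i :: ν) '' ({a} : Set (Fin (d + 1)))ᶜ
            · exact (ha1 x h).le
            · exact (ha2 x hx h).le
          have hble : lb (Function.update p n v x) ≤ cb := by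
            by_cases h : x ∈ sx (i :: ν) '' ({b} : Set (Fin (d + 1)))ᶜ
            · exact (hb1 x h).le
            · exact (hb2 x hx h).le
          by_cases h : x ∈ sx (i :: ν) '' ({a} : Set (Fin (d + 1)))ᶜ
          · have h' : x ∉ sx (i :: ν) '' ({b} : Set (Fin (d + 1)))ᶜ := by
              intro h'
              obtain ⟨m, hm, hmx⟩ := h
              obtain ⟨m', hm2, hmx'⟩ := h'
              have hmm : m = m' := sx_inj _ (hmx.trans hmx'.symm)
              subst hmm
              exact hxA ⟨m, by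
                simp only [Set.mem_compl_iff, Set.mem_insert_iff, Set.mem_singleton_iff, not_or]
                exact ⟨by simpa using hm, by simpa using hm2⟩, hmx⟩
            have := hb2 x hx h'
            linarith
          · have := ha2 x hx h
            linarith
  · -- facets
    intro ν' hν' a hadm' hnot'
    have hν'' : (ν' = [] ∨ ν' ∈ S) ∨ ν' = i :: ν := by
      rcases hν' with h | h | h
      · exact Or.inl (Or.inl h)
      · exact Or.inr h
      · exact Or.inl (Or.inr h)
    rcases hν'' with h | h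
    · refine hlift _ ?_ (hfacet ν' h a hadm' (fun h' => hnot' (Set.mem_insert_of_mem _ h'))) ?_
      · rintro x ⟨m, _, rfl⟩
        exact sx_mem hS2 ν' h m
      · intro hsub
        obtain ⟨h1, h2⟩ := facet_det ν ν' i a hadm hadm' hsub
        apply hnot'
        rw [← h1, ← h2]
        exact Set.mem_insert _ _
    · subst h
      exact hnew a hadm'.1

end Pool.Agent.L7h95.GJ
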